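import Pool.Agent.Q289.OC.Basic

set_option autoImplicit false

/-! The inverse of a strictly diagonally dominant M-matrix. -/

namespace Q162.OC

open Equiv Finset Q289.OC

theorem min_principle {n : ℕ} {K : Matrix (Fin n) (Fin n) ℝ} (hK : MM K) (u : Fin n → ℝ)
    (hu : ∀ x, 0 ≤ (K.mulVec u) x) : ∀ x, 0 ≤ u x := by
  by_contra hcon
  push Not at hcon
  obtain ⟨x0, hx0⟩ := hcon
  obtain ⟨x, -, hx⟩ := Finset.exists_min_image univ u ⟨x0, mem_univ _⟩
  have hxneg : u x < 0 := lt_of_le_of_lt (hx x0 (mem_univ _)) hx0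
  have h1 : (K.mulVec u) x ≤ (∑ y, K x y) * u x := by
    rw [Matrix.mulVec, dotProduct, Finset.sum_mul]
    refine Finset.sum_le_sum fun y _ => ?_
    by_cases hxy : x = y
    · subst hxy
      exact le_rfl
    · exact mul_le_mul_of_nonpos_left (hx y (mem_univ _)) (hK.off x y hxy)
  have h2 := mul_neg_of_pos_of_neg (hK.row x) hxneg
  linarith [hu x]

theorem inj {n : ℕ} {K : Matrix (Fin n) (Fin n) ℝ} (hK : MM K) : Function.Injective K.mulVec := by
  intro u w huw
  have h0 : ∀ x, (K.mulVec (u - w)) x = 0 := by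
    intro x
    rw [Matrix.mulVec_sub, huw, sub_self]
    rfl
  have h1 := min_principle hK (u - w) (fun x => (h0 x).ge)
  have h2 := min_principle hK (w - u) (fun x => by
    rw [← neg_sub, Matrix.mulVec_neg, Pi.neg_apply, h0, neg_zero])
  funext x
  have h3 := h1 x
  have h4 := h2 x
  simp only [Pi.sub_apply] at h3 h4
  linarith

/-- the inverse of an M-matrix -/
theorem pos : PosStm := by
  intro n K hK
  have hU : IsUnit K := Matrix.mulVec_injective_iff_isUnit.1 (inj hK)
  have hD : IsUnit K.det := (Matrix.isUnit_iff_isUnit_det K).1 hU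
  have hKG : K * K⁻¹ = 1 := Matrix.mul_nonsing_inv K hD
  have hGK : K⁻¹ * K = 1 := Matrix.nonsing_inv_mul K hD
  have hKt : K.transpose = K := by
    ext x y
    exact hK.symm y x
  have hnn : ∀ x y, 0 ≤ K⁻¹ x y := by
    intro x y
    refine min_principle hK (fun z => K⁻¹ z y) ?_ x
    intro z
    have : (K.mulVec fun z => K⁻¹ z y) z = (K * K⁻¹) z y := rfl
    rw [this, hKG, Matrix.one_apply]
    split_ifs
    · exact zero_le_one
    · exact le_rfl
  refine ⟨K⁻¹, hKG, hGK, ?_, hnn, ?_⟩
  · intro x y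
    have h1 : (K⁻¹).transpose = K⁻¹ := by
      rw [Matrix.transpose_nonsing_inv, hKt]
    have h2 := congrFun (congrFun h1 y) x
    exact h2
  · intro x
    have h1 : ∑ z, K x z * K⁻¹ z x = 1 := by
      have := congrFun (congrFun hKG x) x
      rw [Matrix.mul_apply, Matrix.one_apply_eq] at this
      exact this
    rw [← Finset.add_sum_erase univ _ (mem_univ x)] at h1
    have h2 : ∑ z ∈ univ.erase x, K x z * K⁻¹ z x ≤ 0 := by
      refine Finset.sum_nonpos fun z hz => ?_
      exact mul_nonpos_of_nonpos_of_nonneg (hK.off x z (Finset.ne_of_mem_erase hz).symm) (hnn z x)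
    have h3 : 1 ≤ K x x * K⁻¹ x x := by linarith
    rcases (hnn x x).eq_or_lt with h | h
    · rw [← h, mul_zero] at h3
      linarith
    · exact h

end Q162.OC
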