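import Pool.Agent.Q289.OC.Basic

set_option autoImplicit false
set_option linter.unusedSimpArgs false
set_option linter.unusedSectionVars false

/-! The algebraic identity behind the octopus inequality. -/

namespace Q162.OC

open Equiv Finset Q289.OC
open scoped InnerProductSpace

section point

variable {n : ℕ}

theorem sw (a : Fin n) : (swap a a : Perm (Fin n)) = 1 := swap_self a

/-- the 3-cycle value, zero unless the points are distinct -/
def y3 (φ : Perm (Fin n) → ℝ) (a b c : Fin n) : ℝ :=
  if a ≠ b ∧ a ≠ c ∧ b ≠ c then φ (swap a b * swap b c) else 0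

theorem y3_pos (φ : Perm (Fin n) → ℝ) {a b c : Fin n} (hab : a ≠ b) (hac : a ≠ c) (hbc : b ≠ c) :
    y3 φ a b c = φ (swap a b * swap b c) := if_pos ⟨hab, hac, hbc⟩

theorem y3_12 (φ : Perm (Fin n) → ℝ) (a c : Fin n) : y3 φ a a c = 0 := if_neg (by simp)
theorem y3_13 (φ : Perm (Fin n) → ℝ) (a c : Fin n) : y3 φ a c a = 0 := if_neg (by simp)
theorem y3_23 (φ : Perm (Fin n) → ℝ) (a c : Fin n) : y3 φ a c c = 0 := if_neg (by simp)

variable {φ : Perm (Fin n) → ℝ} (hφ : ∀ g, φ g⁻¹ = φ g) {a b c : Fin n} (hab : a ≠ b)
  (hac : a ≠ c) (hbc : b ≠ c)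

include hφ

theorem t0 (x y z w : Fin n) : φ (swap x y * swap z w) = φ (swap z w * swap x y) := by
  rw [← hφ (swap x y * swap z w), mul_inv_rev, swap_inv, swap_inv]

include hab hac hbc

theorem t1 : φ (swap a b * swap a c) = φ (swap a b * swap b c) := by
  have h : swap a b * swap a c = swap b c * swap a b := by
    rw [mul_swap_eq_swap_mul, swap_apply_left, swap_apply_of_ne_of_ne hac.symm hbc.symm]
  rw [h, t0 hφ]

theorem t2 : φ (swap a c * swap a b) = φ (swap a b * swap b c) := by
  rw [t0 hφ, t1 hφ hab hac hbc]

theorem t3 : φ (swap a c * swap b c) = φ (swap a b * swap b c) := by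
  have h : swap a c * swap b c = swap b a * swap a c := by
    rw [mul_swap_eq_swap_mul, swap_apply_right, swap_apply_of_ne_of_ne hab.symm hbc]
  rw [h, swap_comm b a, t1 hφ hab hac hbc]

theorem t4 : φ (swap b c * swap a b) = φ (swap a b * swap b c) := t0 hφ _ _ _ _

theorem t5 : φ (swap b c * swap a c) = φ (swap a b * swap b c) := by
  rw [t0 hφ, t3 hφ hab hac hbc]

omit hab hac hbc

/-- the pointwise identity -/
theorem pw (i j k l : Fin n) :
    (if dist4 i j k l then QQ φ i j k l else 0) =
      2 * φ 1 + 2 * φ (swap i j * swap k l) + 2 * φ (swap i k * swap j l) +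
        2 * φ (swap i l * swap j k) -
      2 * y3 φ i j k - 2 * y3 φ i j l - 2 * y3 φ i k l - 2 * y3 φ j k l -
      (if i = j then 2 * φ (swap k l) + 2 * φ 1 else 0) -
      (if k = l then 2 * φ (swap i j) + 2 * φ 1 else 0) -
      (if i = k then 2 * φ (swap j l) + 2 * φ 1 else 0) -
      (if j = l then 2 * φ (swap i k) + 2 * φ 1 else 0) -
      (if i = l then 2 * φ (swap j k) + 2 * φ 1 else 0) -
      (if j = k then 2 * φ (swap i l) + 2 * φ 1 else 0) +
      4 * (if i = j ∧ j = k then φ 1 else 0) + 4 * (if i = j ∧ j = l then φ 1 else 0) +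
      4 * (if i = k ∧ k = l then φ 1 else 0) + 4 * (if j = k ∧ k = l then φ 1 else 0) := by
  by_cases hij : i = j
  · subst hij
    by_cases hik : i = k
    · subst hik
      by_cases hil : i = l
      · subst hil
        simp only [dist4, y3_12, sw, mul_one, ne_eq, not_true_eq_false, false_and, if_false,
          and_self, if_true]
        ring
      · simp only [dist4, y3_12, sw, mul_one, one_mul, ne_eq, not_true_eq_false, false_and,
          if_false, and_self, if_true, hil, and_false]
        ring
    · by_cases hil : i = l
      · subst hil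
        have h1 : ¬ k = i := fun h => hik h.symm
        simp only [dist4, y3_12, y3_13, sw, mul_one, one_mul, ne_eq, not_true_eq_false, false_and,
          if_false, and_self, if_true, hik, h1, and_false, swap_comm k i]
        ring
      · by_cases hkl : k = l
        · subst hkl
          simp only [dist4, y3_12, y3_13, y3_23, sw, mul_one, one_mul, ne_eq, not_true_eq_false,
            false_and, if_false, and_self, if_true, hik, and_false, swap_mul_self]
          ring
        · rw [t1 hφ hik hil hkl, t2 hφ hik hil hkl]
          simp only [dist4, y3_12, y3_13, y3_23, y3_pos φ hik hil hkl, sw, mul_one, one_mul, ne_eq,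
            not_true_eq_false, false_and, if_false, and_self, if_true, hik, hil, hkl, and_false,
            swap_mul_self]
          ring
  · have hji : ¬ j = i := fun h => hij h.symm
    by_cases hik : i = k
    · subst hik
      by_cases hil : i = l
      · subst hil
        simp only [dist4, y3_12, y3_13, y3_23, sw, mul_one, one_mul, ne_eq, not_true_eq_false,
          false_and, if_false, and_self, if_true, hij, hji, and_false, swap_mul_self,
          swap_comm j i]
        ring
      · by_cases hjl : j = l
        · subst hjl
          simp only [dist4, y3_12, y3_13, y3_23, sw, mul_one, one_mul, ne_eq, not_true_eq_false,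
            false_and, if_false, and_self, if_true, hij, hji, and_false, swap_mul_self,
            swap_comm j i]
          ring
        · rw [t1 hφ hij hil hjl, swap_comm j i, t2 hφ hij hil hjl]
          simp only [dist4, y3_12, y3_13, y3_23, y3_pos φ hij hil hjl,
            y3_pos φ hji hjl hil, sw, mul_one, one_mul, ne_eq,
            not_true_eq_false, false_and, if_false, and_self, if_true, hij, hji, hil, hjl,
            and_false, swap_mul_self]
          rw [swap_comm j i, t1 hφ hij hil hjl]
          ring
    · have hki : ¬ k = i := fun h => hik h.symm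
      by_cases hil : i = l
      · subst hil
        by_cases hjk : j = k
        · subst hjk
          simp only [dist4, y3_12, y3_13, y3_23, sw, mul_one, one_mul, ne_eq, not_true_eq_false,
            false_and, if_false, and_self, if_true, hij, hji, and_false, swap_mul_self,
            swap_comm j i]
          ring
        · simp only [dist4, y3_12, y3_13, y3_23, y3_pos φ hij hik hjk,
            y3_pos φ hjk hji hki, sw, mul_one, one_mul, ne_eq,
            not_true_eq_false, false_and, if_false, and_self, if_true, hij, hji, hik, hki, hjk,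
            and_false, swap_mul_self, swap_comm k i, swap_comm j i]
          rw [t1 hφ hij hik hjk, t2 hφ hij hik hjk, t5 hφ hij hik hjk]
          ring
      · by_cases hjk : j = k
        · subst hjk
          by_cases hjl : j = l
          · subst hjl
            simp only [dist4, y3_12, y3_13, y3_23, sw, mul_one, one_mul, ne_eq, not_true_eq_false,
              false_and, if_false, and_self, if_true, hij, hji, and_false]
            ring
          · simp only [dist4, y3_12, y3_13, y3_23, y3_pos φ hij hil hjl, sw, mul_one, one_mul,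
              ne_eq, not_true_eq_false, false_and, if_false, and_self, if_true, hij, hji, hil, hjl,
              and_false]
            ring
        · by_cases hjl : j = l
          · subst hjl
            have hkj : ¬ k = j := fun h => hjk h.symm
            simp only [dist4, y3_12, y3_13, y3_23, y3_pos φ hij hik hjk, y3_pos φ hik hij hkj, sw,
              mul_one, one_mul, ne_eq, not_true_eq_false, false_and, if_false, and_self, if_true,
              hij, hji, hik, hki, hjk, hkj, and_false, swap_comm k j]
            rw [t3 hφ hij hik hjk]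
            ring
          · by_cases hkl : k = l
            · subst hkl
              simp only [dist4, y3_12, y3_13, y3_23, y3_pos φ hij hik hjk, sw,
                mul_one, one_mul, ne_eq, not_true_eq_false, false_and, if_false, and_self, if_true,
                hij, hji, hik, hki, hjk, and_false]
              rw [t3 hφ hij hik hjk]
              ring
            · have hd : dist4 i j k l := ⟨hij, hik, hil, hjk, hjl, hkl⟩
              rw [if_pos hd, y3_pos φ hij hik hjk, y3_pos φ hij hil hjl, y3_pos φ hik hil hkl,
                y3_pos φ hjk hjl hkl]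
              simp only [hij, hik, hil, hjk, hjl, hkl, false_and, if_false, QQ]
              ring

end point

section sums

variable {n : ℕ} (c : Fin n → ℝ)

/-- the fourfold weighted sum -/
def E (T : Fin n → Fin n → Fin n → Fin n → ℝ) : ℝ :=
  ∑ i, ∑ j, ∑ k, ∑ l, c i * c j * c k * c l * T i j k l

theorem E_add (S T : Fin n → Fin n → Fin n → Fin n → ℝ) :
    E c (fun i j k l => S i j k l + T i j k l) = E c S + E c T := by
  simp only [E, mul_add, sum_add_distrib]

theorem E_sub (S T : Fin n → Fin n → Fin n → Fin n → ℝ) :
    E c (fun i j k l => S i j k l - T i j k l) = E c S - E c T := by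
  simp only [E, mul_sub, sum_sub_distrib]

theorem E_mul (a : ℝ) (T : Fin n → Fin n → Fin n → Fin n → ℝ) :
    E c (fun i j k l => a * T i j k l) = a * E c T := by
  simp only [E, mul_sum]
  refine sum_congr rfl fun i _ => sum_congr rfl fun j _ => sum_congr rfl fun k _ =>
    sum_congr rfl fun l _ => ?_
  ring

theorem E_12 (T : Fin n → Fin n → Fin n → Fin n → ℝ) :
    E c T = E c (fun i j k l => T j i k l) := by
  unfold E
  rw [sum_comm]
  refine sum_congr rfl fun i _ => sum_congr rfl fun j _ => sum_congr rfl fun k _ =>
    sum_congr rfl fun l _ => ?_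
  ring

theorem E_23 (T : Fin n → Fin n → Fin n → Fin n → ℝ) :
    E c T = E c (fun i j k l => T i k j l) := by
  unfold E
  refine sum_congr rfl fun i _ => ?_
  rw [sum_comm]
  refine sum_congr rfl fun j _ => sum_congr rfl fun k _ => sum_congr rfl fun l _ => ?_
  ring

theorem E_34 (T : Fin n → Fin n → Fin n → Fin n → ℝ) :
    E c T = E c (fun i j k l => T i j l k) := by
  unfold E
  refine sum_congr rfl fun i _ => sum_congr rfl fun j _ => ?_
  rw [sum_comm]
  refine sum_congr rfl fun k _ => sum_congr rfl fun l _ => ?_
  ring

variable (hc : ∑ i, c i = 0)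

include hc

theorem E4 (T : Fin n → Fin n → Fin n → ℝ) : E c (fun i j k _ => T i j k) = 0 := by
  unfold E
  refine sum_eq_zero fun i _ => sum_eq_zero fun j _ => sum_eq_zero fun k _ => ?_
  have h : ∀ l, c i * c j * c k * c l * T i j k = (c i * c j * c k * T i j k) * c l := fun l => by
    ring
  simp only [h]
  rw [← mul_sum, hc, mul_zero]

theorem E3 (T : Fin n → Fin n → Fin n → ℝ) : E c (fun i j _ l => T i j l) = 0 := by
  rw [E_34]
  exact E4 c hc T

theorem E2 (T : Fin n → Fin n → Fin n → ℝ) : E c (fun i _ k l => T i k l) = 0 := by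
  rw [E_23]
  exact E3 c hc T

theorem E1 (T : Fin n → Fin n → Fin n → ℝ) : E c (fun _ j k l => T j k l) = 0 := by
  rw [E_12]
  exact E2 c hc T

theorem Edel (U : Fin n → Fin n → ℝ) (a : ℝ) :
    E c (fun i j k l => if i = j then 2 * U k l + a else 0) =
      2 * (∑ i, c i ^ 2) * ∑ i, ∑ j, c i * c j * U i j := by
  unfold E
  have h : ∀ i, ∑ j, ∑ k, ∑ l, c i * c j * c k * c l * (if i = j then 2 * U k l + a else 0) =
      c i ^ 2 * (2 * ∑ k, ∑ l, c k * c l * U k l) := by
    intro i
    rw [sum_eq_single i]
    · simp only [if_true, mul_sum]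
      have h1 : ∀ k, ∑ l, c i * c i * c k * c l * (2 * U k l + a) =
          ∑ l, c i ^ 2 * (2 * (c k * c l * U k l)) := by
        intro k
        have h2 : ∀ l, c i * c i * c k * c l * (2 * U k l + a) =
            c i ^ 2 * (2 * (c k * c l * U k l)) + c i ^ 2 * c k * a * c l := fun l => by ring
        simp only [h2]
        rw [sum_add_distrib, ← mul_sum univ c (c i ^ 2 * c k * a), hc, mul_zero, add_zero]
      exact sum_congr rfl fun k _ => h1 k
    · intro j _ hj
      refine sum_eq_zero fun k _ => sum_eq_zero fun l _ => ?_
      rw [if_neg (Ne.symm hj), mul_zero]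
    · intro h
      exact absurd (mem_univ i) h
  simp only [h]
  rw [← sum_mul]
  ring

theorem E_all (φ : Perm (Fin n) → ℝ) (hφ : ∀ g, φ g⁻¹ = φ g) :
    E c (fun i j k l => if dist4 i j k l then QQ φ i j k l else 0) =
      6 * E c (fun i j k l => φ (swap i j * swap k l)) -
        12 * (∑ i, c i ^ 2) * ∑ i, ∑ j, c i * c j * φ (swap i j) := by
  have f2 : E c (fun i j k l => φ (swap i k * swap j l)) =
      E c (fun i j k l => φ (swap i j * swap k l)) := by
    rw [E_23]
  have f3 : E c (fun i j k l => φ (swap i l * swap j k)) =
      E c (fun i j k l => φ (swap i j * swap k l)) := by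
    rw [E_34, E_23]
  have d1 := Edel c hc (fun k l => φ (swap k l)) (2 * φ 1)
  have d2 : E c (fun i j k l => if k = l then 2 * φ (swap i j) + 2 * φ 1 else 0) =
      2 * (∑ i, c i ^ 2) * ∑ i, ∑ j, c i * c j * φ (swap i j) := by
    rw [← d1, E_23, E_12, E_34, E_23]
  have d3 : E c (fun i j k l => if i = k then 2 * φ (swap j l) + 2 * φ 1 else 0) =
      2 * (∑ i, c i ^ 2) * ∑ i, ∑ j, c i * c j * φ (swap i j) := by
    rw [← d1, E_23]
  have d4 : E c (fun i j k l => if j = l then 2 * φ (swap i k) + 2 * φ 1 else 0) =
      2 * (∑ i, c i ^ 2) * ∑ i, ∑ j, c i * c j * φ (swap i j) := by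
    rw [← d2, E_23]
  have d5 : E c (fun i j k l => if i = l then 2 * φ (swap j k) + 2 * φ 1 else 0) =
      2 * (∑ i, c i ^ 2) * ∑ i, ∑ j, c i * c j * φ (swap i j) := by
    rw [← d3, E_34]
  have d6 : E c (fun i j k l => if j = k then 2 * φ (swap i l) + 2 * φ 1 else 0) =
      2 * (∑ i, c i ^ 2) * ∑ i, ∑ j, c i * c j * φ (swap i j) := by
    rw [← d4, E_34]
  have h : (fun i j k l : Fin n => if dist4 i j k l then QQ φ i j k l else 0) = _ :=
    funext fun i => funext fun j => funext fun k => funext fun l => pw hφ i j k l
  rw [h]
  simp only [E_add, E_sub, E_mul]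
  rw [d1, d2, d3, d4, d5, d6, f2, f3, E4 c hc (fun _ _ _ => φ 1), E4 c hc (fun i j k => y3 φ i j k),
    E3 c hc (fun i j l => y3 φ i j l), E2 c hc (fun i k l => y3 φ i k l),
    E1 c hc (fun j k l => y3 φ j k l),
    E4 c hc (fun i j k => if i = j ∧ j = k then φ 1 else 0),
    E3 c hc (fun i j l => if i = j ∧ j = l then φ 1 else 0),
    E2 c hc (fun i k l => if i = k ∧ k = l then φ 1 else 0),
    E1 c hc (fun j k l => if j = k ∧ k = l then φ 1 else 0)]
  ring

end sums

/-- the algebraic identity behind the octopus inequality -/
theorem sum : SumStm := by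
  intro n W _ _ ρ hρ v c hc
  have h1 := E_all c hc (mc ρ v) (fun g => hρ.mc_inv v g)
  have h2 : E c (fun i j k l => mc ρ v (swap i j * swap k l)) =
      ‖∑ i, ∑ j, (c i * c j) • ρ (swap i j) v‖ ^ 2 := by
    rw [← real_inner_self_eq_norm_sq, sum_inner]
    unfold E
    refine sum_congr rfl fun i _ => ?_
    rw [sum_inner]
    refine sum_congr rfl fun j _ => ?_
    rw [inner_sum]
    refine sum_congr rfl fun k _ => ?_
    rw [inner_sum]
    refine sum_congr rfl fun l _ => ?_
    change c i * c j * c k * c l * ⟪ρ (swap i j * swap k l) v, v⟫_ℝ = _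
    rw [real_inner_smul_left, real_inner_smul_right, rho_mul, hρ.adj, swap_inv,
      real_inner_comm]
    ring
  rw [h2] at h1
  rw [← h1]
  unfold E
  refine sum_congr rfl fun i _ => sum_congr rfl fun j _ => sum_congr rfl fun k _ =>
    sum_congr rfl fun l _ => ?_
  by_cases h : dist4 i j k l
  · rw [if_pos h]
    change _ = c i * c j * c k * c l * (if dist4 i j k l then QQ (mc ρ v) i j k l else 0)
    rw [if_pos h]
  · rw [if_neg h]
    change _ = c i * c j * c k * c l * (if dist4 i j k l then QQ (mc ρ v) i j k l else 0)
    rw [if_neg h, mul_zero]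

end Q162.OC
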